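import Pool.Agent.H121.FL.Iface

set_option autoImplicit false

/-! Project FL (helper121), the part FL-TEN. -/

open scoped BigOperators Topology
open Filter

namespace Pool.Agent.H539.FLT

open Pool.Agent.H987.Y (Lt Ker kf)
open Pool.Agent.H121.FL

/-! ### general lemmas -/

/-- product of sums -/
theorem hasSum_pi {d : ℕ} (F : Fin d → ℤ → ℝ) (s : Fin d → ℝ)
    (hfin : ∀ i, (Function.support (F i)).Finite) (h : ∀ i, HasSum (F i) (s i)) :
    HasSum (fun x : Lt d => ∏ i, F i (x i)) (∏ i, s i) := by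
  classical
  have h1 : ∀ i, s i = ∑ x ∈ (hfin i).toFinset, F i x := by
    intro i
    refine (h i).unique (hasSum_sum_of_ne_finset_zero fun x hx => ?_)
    by_contra hne
    exact hx ((hfin i).mem_toFinset.2 hne)
  have h2 : ∏ i, s i = ∑ x ∈ Fintype.piFinset (fun i => (hfin i).toFinset), ∏ i, F i (x i) := by
    simp_rw [h1]
    exact Finset.prod_univ_sum _ _
  rw [h2]
  refine hasSum_sum_of_ne_finset_zero fun x hx => ?_
  rw [Fintype.mem_piFinset] at hx
  push Not at hx
  obtain ⟨i, hi⟩ := hx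
  apply Finset.prod_eq_zero (Finset.mem_univ i)
  by_contra hne
  exact hi ((hfin i).mem_toFinset.2 hne)

/-- separation of finitely many values -/
theorem sepfin {P : Type} [Finite P] [Nonempty P] (u w : P → ℝ) (hw : Function.Injective w)
    (τ0 : ℝ) (h0 : 0 < τ0) : ∃ τ : ℝ, 0 < τ ∧ τ ≤ τ0 ∧ ∃ g : ℝ, 0 < g ∧
      ∀ p q, p ≠ q → g ≤ |(u p + τ * w p) - (u q + τ * w q)| := by
  classical
  have hB : (Set.range fun pq : P × P => (u pq.2 - u pq.1) / (w pq.1 - w pq.2)).Finite :=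
    Set.finite_range _
  obtain ⟨τ, hτ, hτB⟩ := (Set.Ioo_infinite h0).exists_notMem_finite hB
  refine ⟨τ, hτ.1, hτ.2.le, ?_⟩
  obtain ⟨m, hm⟩ := Finite.exists_min fun pq : P × P =>
    if pq.1 = pq.2 then (1 : ℝ) else |(u pq.1 + τ * w pq.1) - (u pq.2 + τ * w pq.2)|
  refine ⟨_, ?_, fun p q hpq => (hm (p, q)).trans (le_of_eq (if_neg hpq))⟩
  split_ifs with h
  · exact one_pos
  · rw [abs_pos]
    intro h2
    apply hτB
    refine ⟨m, ?_⟩
    have h3 : w m.1 - w m.2 ≠ 0 := sub_ne_zero.2 fun h4 => h (hw h4)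
    show (u m.2 - u m.1) / (w m.1 - w m.2) = τ
    rw [div_eq_iff h3]
    linarith

theorem nm_le {d : ℕ} (x y : Lt d) (K : ℕ) (h : ∀ i, |x i - y i| ≤ K) : nm (x - y) ≤ K * d := by
  unfold nm
  calc ∑ i, ((x - y) i).natAbs ≤ ∑ _i : Fin d, K := by
        refine Finset.sum_le_sum fun i _ => ?_
        have h1 := h i
        have h2 : (((x - y) i).natAbs : ℤ) = |x i - y i| := by
          rw [Int.natCast_natAbs]
          rfl
        have h3 : (((x - y) i).natAbs : ℤ) ≤ K := by rw [h2]; exact h1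
        exact_mod_cast h3
    _ = K * d := by
        rw [Finset.sum_const, Finset.card_univ, Fintype.card_fin, smul_eq_mul, mul_comm]

/-! ### kernels acting in one direction -/

/-- the kernel `K` in the direction `i` -/
noncomputable def Dk {d : ℕ} (K : ℤ → ℤ → ℝ) (i : Fin d) (x y : Lt d) : ℝ :=
  ∏ k, (if k = i then K (x k) (y k) else if x k = y k then 1 else 0)

open Classical in
theorem Dk_eq {d : ℕ} (K : ℤ → ℤ → ℝ) (i : Fin d) (x y : Lt d) :
    Dk K i x y = if (∀ k, k ≠ i → x k = y k) then K (x i) (y i) else 0 := by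
  unfold Dk
  split_ifs with h
  · rw [Finset.prod_eq_single i]
    · rw [if_pos rfl]
    · intro k _ hk
      rw [if_neg hk, if_pos (h k hk)]
    · intro h2
      exact absurd (Finset.mem_univ i) h2
  · push Not at h
    obtain ⟨k, hk, hk2⟩ := h
    apply Finset.prod_eq_zero (Finset.mem_univ k)
    rw [if_neg hk, if_neg hk2]

theorem Dk_symm {d : ℕ} {K : ℤ → ℤ → ℝ} (h : ∀ x y, K x y = K y x) (i : Fin d) (x y : Lt d) :
    Dk K i x y = Dk K i y x := by
  unfold Dk
  refine Finset.prod_congr rfl fun k _ => ?_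
  rw [h (x k) (y k)]
  simp only [eq_comm]

theorem Dk_sub {d : ℕ} (K K' : ℤ → ℤ → ℝ) (i : Fin d) (x y : Lt d) :
    Dk K i x y - Dk K' i x y = Dk (fun a b => K a b - K' a b) i x y := by
  rw [Dk_eq, Dk_eq, Dk_eq]
  split_ifs <;> simp

theorem abs_Dk {d : ℕ} (K : ℤ → ℤ → ℝ) (i : Fin d) (x y : Lt d) :
    |Dk K i x y| = Dk (fun a b => |K a b|) i x y := by
  rw [Dk_eq, Dk_eq]
  split_ifs <;> simp

theorem Dk_ne {d : ℕ} {K : ℤ → ℤ → ℝ} {i : Fin d} {x y : Lt d} (h : Dk K i x y ≠ 0) :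
    (∀ k, k ≠ i → x k = y k) ∧ K (x i) (y i) ≠ 0 := by
  rw [Dk_eq] at h
  split_ifs at h with h1
  · exact ⟨h1, h⟩
  · exact absurd rfl h

theorem Dk_shift {d : ℕ} {K : ℤ → ℤ → ℝ} {c : ℤ} (h : ∀ x y, K (x + c) (y + c) = K x y)
    (i : Fin d) (x y v : Lt d) : Dk K i (x + c • v) (y + c • v) = Dk K i x y := by
  have h2 : ∀ (m x y : ℤ), K (x + c * m) (y + c * m) = K x y := by
    intro m
    induction m using Int.induction_on with
    | zero => intro x y; simp
    | succ m ih =>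
      intro x y
      rw [show x + c * ((m : ℤ) + 1) = (x + c * m) + c by ring,
        show y + c * ((m : ℤ) + 1) = (y + c * m) + c by ring, h, ih]
    | pred m ih =>
      intro x y
      rw [← h, show x + c * (-(m : ℤ) - 1) + c = x + c * (-(m : ℤ)) by ring,
        show y + c * (-(m : ℤ) - 1) + c = y + c * (-(m : ℤ)) by ring, ih]
  unfold Dk
  refine Finset.prod_congr rfl fun k _ => ?_
  simp only [Pi.add_apply, Pi.smul_apply, smul_eq_mul]
  rw [h2]
  simp only [add_left_inj]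

theorem hasSum_Dk {d : ℕ} {K : ℤ → ℤ → ℝ} (i : Fin d) (x : Lt d) {s : ℝ}
    (hfin : (Function.support (K (x i))).Finite) (h : HasSum (K (x i)) s) :
    HasSum (fun y => Dk K i x y) s := by
  have h1 := hasSum_pi (d := d)
    (fun k y => if k = i then K (x k) y else if x k = y then 1 else 0)
    (fun k => if k = i then s else 1) ?_ ?_
  · have h2 : ∏ k, (if k = i then s else 1) = s := by
      rw [Finset.prod_ite_eq' Finset.univ i, if_pos (Finset.mem_univ i)]
    rw [h2] at h1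
    exact h1
  · intro k
    by_cases hk : k = i
    · rw [hk]
      simp only [if_true]
      exact hfin
    · simp only [if_neg hk]
      refine (Set.finite_singleton (x k)).subset fun y hy => ?_
      by_contra hne
      exact hy (if_neg fun h3 => hne h3.symm)
  · intro k
    by_cases hk : k = i
    · rw [hk]
      simp only [if_true]
      exact h
    · simp only [if_neg hk]
      have h3 := hasSum_single (f := fun y => if x k = y then (1 : ℝ) else 0) (x k)
        fun y hy => if_neg fun h4 => hy h4.symm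
      rw [if_pos rfl] at h3
      exact h3

/-- the product functions -/
noncomputable def fi {d : ℕ} (ψ : ℤ → ℤ → ℝ) (a x : Lt d) : ℝ := ∏ i, ψ (a i) (x i)

theorem hasSum_Dk_mul {d : ℕ} {K ψ : ℤ → ℤ → ℝ} (i : Fin d) (a x : Lt d) {c : ℝ}
    (hfin : ∀ k, (Function.support (ψ (a k))).Finite)
    (h : HasSum (fun y => K (x i) y * ψ (a i) y) (c * ψ (a i) (x i))) :
    HasSum (fun y => Dk K i x y * fi ψ a y) (c * fi ψ a x) := by
  have h1 := hasSum_pi (d := d)
    (fun k y => (if k = i then K (x k) y else if x k = y then 1 else 0) * ψ (a k) y)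
    (fun k => (if k = i then c else 1) * ψ (a k) (x k)) ?_ ?_
  · have h2 : ∏ k, (if k = i then c else 1) = c := by
      rw [Finset.prod_ite_eq' Finset.univ i, if_pos (Finset.mem_univ i)]
    rw [Finset.prod_mul_distrib, h2] at h1
    refine h1.congr_fun ?_
    intro y
    unfold Dk fi
    rw [Finset.prod_mul_distrib]
  · intro k
    refine (hfin k).subset fun y hy => ?_
    intro h3
    exact hy (by simp only [h3, mul_zero])
  · intro k
    by_cases hk : k = i
    · rw [hk]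
      simp only [if_true]
      exact h
    · simp only [if_neg hk, one_mul]
      have h3 := hasSum_single (f := fun y => (if x k = y then (1 : ℝ) else 0) * ψ (a k) y) (x k)
        fun y hy => by rw [if_neg fun h4 => hy h4.symm, zero_mul]
      rw [if_pos rfl, one_mul] at h3
      exact h3

/-! ### the functions of one variable -/

theorem shift_mul {K : ℤ → ℤ → ℝ} {c : ℤ} (h : ∀ x y, K (x + c) (y + c) = K x y) (m x y : ℤ) :
    K (x + c * m) (y + c * m) = K x y := by
  induction m using Int.induction_on generalizing x y with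
  | zero => simp
  | succ m ih =>
    rw [show x + c * ((m : ℤ) + 1) = (x + c * m) + c by ring,
      show y + c * ((m : ℤ) + 1) = (y + c * m) + c by ring, h, ih]
  | pred m ih =>
    rw [← h, show x + c * (-(m : ℤ) - 1) + c = x + c * (-(m : ℤ)) by ring,
      show y + c * (-(m : ℤ) - 1) + c = y + c * (-(m : ℤ)) by ring, ih]

section one

variable {M : ℕ} {t ψ : ℤ → ℤ → ℝ} {e : ℤ → ℝ}

theorem fin_psi (H : F1 M t ψ e) (a : ℤ) : (Function.support (ψ a)).Finite := by
  refine (Set.finite_Icc (a - 2 * M) (a + 2 * M)).subset fun x hx => ?_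
  have h := H.rg a x hx
  rw [abs_le] at h
  exact ⟨by linarith [h.2], by linarith [h.1]⟩

theorem fin_psi' (H : F1 M t ψ e) (x : ℤ) : (Function.support fun a => ψ a x).Finite := by
  refine (Set.finite_Icc (x - 2 * M) (x + 2 * M)).subset fun a ha => ?_
  have h := H.rg a x ha
  rw [abs_le] at h
  exact ⟨by linarith [h.1], by linarith [h.2]⟩

theorem fin_t (H : F1 M t ψ e) (x : ℤ) : (Function.support (t x)).Finite := by
  refine (Set.finite_Icc (x - 4 * M) (x + 4 * M)).subset fun y hy => ?_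
  have h := H.trg x y hy
  rw [abs_le] at h
  exact ⟨by linarith [h.2], by linarith [h.1]⟩

theorem fin_k1 (x : ℤ) : (Function.support (k1 x)).Finite := by
  refine (Set.toFinite {x + 1, x - 1}).subset fun y hy => ?_
  by_contra h
  simp only [Set.mem_insert_iff, Set.mem_singleton_iff, not_or] at h
  apply hy
  unfold k1
  rw [if_neg h.1, if_neg h.2, add_zero]

theorem k1_nonneg (x y : ℤ) : 0 ≤ k1 x y := by
  unfold k1
  positivity

theorem hasSum_k1 (x : ℤ) : HasSum (k1 x) 2 := by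
  have h1 := hasSum_ite_eq (x + 1) (1 : ℝ)
  have h2 := hasSum_ite_eq (x - 1) (1 : ℝ)
  have h3 := h1.add h2
  norm_num at h3
  exact h3

theorem e_shift (H : F1 M t ψ e) (m a : ℤ) : e (a + M * m) = e a :=
  shift_mul (K := fun a _ => e a) (c := M) (fun x _ => H.pe x) m a 0

/-! ### products -/

variable {d : ℕ}

theorem fi_on (H : F1 M t ψ e) (a b : Lt d) :
    HasSum (fun x => fi ψ a x * fi ψ b x) (if a = b then 1 else 0) := by
  have h1 := hasSum_pi (d := d) (fun i x => ψ (a i) x * ψ (b i) x)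
    (fun i => if a i = b i then 1 else 0) ?_ fun i => H.on (a i) (b i)
  · have h2 : (∏ i, (if a i = b i then (1 : ℝ) else 0)) = if a = b then 1 else 0 := by
      by_cases hab : a = b
      · rw [if_pos hab]
        exact Finset.prod_eq_one fun i _ => if_pos (congrFun hab i)
      · rw [if_neg hab]
        obtain ⟨i, hi⟩ := Function.ne_iff.1 hab
        exact Finset.prod_eq_zero (Finset.mem_univ i) (if_neg hi)
    rw [h2] at h1
    refine h1.congr_fun fun x => ?_
    unfold fi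
    rw [Finset.prod_mul_distrib]
  · intro i
    refine (fin_psi H (a i)).subset fun x hx h3 => ?_
    exact hx (by simp only [h3, zero_mul])

theorem fi_cp (H : F1 M t ψ e) (x y : Lt d) :
    HasSum (fun a => fi ψ a x * fi ψ a y) (if x = y then 1 else 0) := by
  have h1 := hasSum_pi (d := d) (fun i a => ψ a (x i) * ψ a (y i))
    (fun i => if x i = y i then 1 else 0) ?_ fun i => H.cp (x i) (y i)
  · have h2 : (∏ i, (if x i = y i then (1 : ℝ) else 0)) = if x = y then 1 else 0 := by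
      by_cases hab : x = y
      · rw [if_pos hab]
        exact Finset.prod_eq_one fun i _ => if_pos (congrFun hab i)
      · rw [if_neg hab]
        obtain ⟨i, hi⟩ := Function.ne_iff.1 hab
        exact Finset.prod_eq_zero (Finset.mem_univ i) (if_neg hi)
    rw [h2] at h1
    refine h1.congr_fun fun a => ?_
    unfold fi
    rw [Finset.prod_mul_distrib]
  · intro i
    refine (fin_psi' H (x i)).subset fun a ha h3 => ?_
    exact ha (by
      have h4 : ψ a (x i) = 0 := h3
      simp only [h4, zero_mul])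

theorem fi_ne (H : F1 M t ψ e) {a x : Lt d} (h : fi ψ a x ≠ 0) (i : Fin d) :
    |a i - x i| ≤ 2 * M := by
  unfold fi at h
  exact H.rg _ _ (Finset.prod_ne_zero_iff.1 h i (Finset.mem_univ i))

theorem fi_le (H : F1 M t ψ e) (a x : Lt d) : |fi ψ a x| ≤ 1 := by
  have h1 := fi_on H a a
  rw [if_pos rfl] at h1
  have h2 := le_hasSum h1 x fun j _ => mul_self_nonneg _
  rw [abs_le]
  constructor <;> nlinarith

theorem fi_shift (H : F1 M t ψ e) (a x v : Lt d) :
    fi ψ (a + ((2 * M : ℕ) : ℤ) • v) (x + ((2 * M : ℕ) : ℤ) • v) = fi ψ a x := by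
  unfold fi
  refine Finset.prod_congr rfl fun i _ => ?_
  simp only [Pi.add_apply, Pi.smul_apply, smul_eq_mul]
  have h := shift_mul (K := ψ) (c := M) (fun x y => H.pps x y) (2 * v i) (a i) (x i)
  rw [← h]
  congr 1 <;> push_cast <;> ring

/-- a box -/
noncomputable def bx (M : ℕ) (x : Lt d) : Finset (Lt d) :=
  Fintype.piFinset fun i => Finset.Icc (x i - 2 * M) (x i + 2 * M)

theorem mem_bx {x a : Lt d} (h : ∀ i, |a i - x i| ≤ 2 * M) : a ∈ bx M x := by
  unfold bx
  rw [Fintype.mem_piFinset]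
  intro i
  have h1 := h i
  rw [abs_le] at h1
  rw [Finset.mem_Icc]
  exact ⟨by linarith [h1.1], by linarith [h1.2]⟩

theorem card_bx (x : Lt d) : (bx M x).card = (4 * M + 1) ^ d := by
  unfold bx
  rw [Fintype.card_piFinset]
  have h1 : ∀ i, (Finset.Icc (x i - 2 * (M : ℤ)) (x i + 2 * M)).card = 4 * M + 1 := by
    intro i
    rw [Int.card_Icc]
    omega
  simp_rw [h1]
  rw [Finset.prod_const, Finset.card_univ, Fintype.card_fin]

/-- the kernel with the eigenvalues `w` -/
noncomputable def Jk (ψ : ℤ → ℤ → ℝ) (w : Lt d → ℝ) (x y : Lt d) : ℝ :=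
  ∑' a, w a * (fi ψ a x * fi ψ a y)

theorem Jk_eq (H : F1 M t ψ e) (w : Lt d → ℝ) (x y : Lt d) :
    Jk ψ w x y = ∑ a ∈ bx M x, w a * (fi ψ a x * fi ψ a y) := by
  unfold Jk
  refine tsum_eq_sum fun a ha => ?_
  have h1 : fi ψ a x = 0 := by
    by_contra h2
    exact ha (mem_bx (fi_ne H h2))
  rw [h1, zero_mul, mul_zero]

theorem Jk_symm (w : Lt d → ℝ) (x y : Lt d) : Jk ψ w x y = Jk ψ w y x := by
  unfold Jk
  exact tsum_congr fun a => by rw [mul_comm (fi ψ a x)]

theorem Jk_ne (H : F1 M t ψ e) {w : Lt d → ℝ} {x y : Lt d} (h : Jk ψ w x y ≠ 0) (i : Fin d) :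
    |x i - y i| ≤ 4 * M := by
  rw [Jk_eq H] at h
  obtain ⟨a, -, ha⟩ := Finset.exists_ne_zero_of_sum_ne_zero h
  have h1 := fi_ne H (left_ne_zero_of_mul (right_ne_zero_of_mul ha)) i
  have h2 := fi_ne H (right_ne_zero_of_mul (right_ne_zero_of_mul ha)) i
  rw [abs_le] at h1 h2 ⊢
  constructor <;> linarith [h1.1, h1.2, h2.1, h2.2]

theorem Jk_eg (H : F1 M t ψ e) (w : Lt d → ℝ) (a x : Lt d) :
    HasSum (fun y => Jk ψ w x y * fi ψ a y) (w a * fi ψ a x) := by
  have h1 : HasSum (fun y => ∑ b ∈ bx M x, (w b * fi ψ b x) * (fi ψ b y * fi ψ a y))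
      (∑ b ∈ bx M x, (w b * fi ψ b x) * (if b = a then 1 else 0)) :=
    hasSum_sum fun b _ => (fi_on H b a).mul_left (w b * fi ψ b x)
  have h2 : (∑ b ∈ bx M x, (w b * fi ψ b x) * (if b = a then (1 : ℝ) else 0)) =
      w a * fi ψ a x := by
    rw [Finset.sum_eq_single a]
    · rw [if_pos rfl, mul_one]
    · intro b _ hb
      rw [if_neg hb, mul_zero]
    · intro ha
      have h3 : fi ψ a x = 0 := by
        by_contra h2
        exact ha (mem_bx (fi_ne H h2))
      rw [h3, mul_zero, zero_mul]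
  rw [h2] at h1
  refine h1.congr_fun fun y => ?_
  rw [Jk_eq H, Finset.sum_mul]
  exact Finset.sum_congr rfl fun b _ => by ring

theorem Jk_abs (H : F1 M t ψ e) (w : Lt d → ℝ) (W : ℝ) (hw : ∀ a, |w a| ≤ W) (x : Lt d) :
    (Summable fun y => |Jk ψ w x y|) ∧ ∑' y, |Jk ψ w x y| ≤ W * ((4 * M + 1 : ℝ) ^ d) ^ 2 := by
  have hW : 0 ≤ W := (abs_nonneg _).trans (hw x)
  have h1 : ∀ b : Lt d, HasSum (fun y => W * |fi ψ b y|) (∑ y ∈ bx M b, W * |fi ψ b y|) := by
    intro b
    refine hasSum_sum_of_ne_finset_zero fun y hy => ?_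
    have h2 : fi ψ b y = 0 := by
      by_contra h3
      refine hy (mem_bx fun i => ?_)
      rw [abs_sub_comm]
      exact fi_ne H h3 i
    rw [h2, abs_zero, mul_zero]
  have h3 : HasSum (fun y => ∑ b ∈ bx M x, W * |fi ψ b y|)
      (∑ b ∈ bx M x, ∑ y ∈ bx M b, W * |fi ψ b y|) := hasSum_sum fun b _ => h1 b
  have h4 : ∀ y, |Jk ψ w x y| ≤ ∑ b ∈ bx M x, W * |fi ψ b y| := by
    intro y
    rw [Jk_eq H]
    refine (Finset.abs_sum_le_sum_abs _ _).trans (Finset.sum_le_sum fun b _ => ?_)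
    rw [abs_mul, abs_mul]
    have h5 : |fi ψ b x| * |fi ψ b y| ≤ 1 * |fi ψ b y| :=
      mul_le_mul_of_nonneg_right (fi_le H b x) (abs_nonneg _)
    rw [one_mul] at h5
    exact mul_le_mul (hw b) h5 (by positivity) hW
  have h6 : Summable fun y => |Jk ψ w x y| :=
    Summable.of_nonneg_of_le (fun y => abs_nonneg _) h4 h3.summable
  refine ⟨h6, (h6.tsum_le_tsum h4 h3.summable).trans ?_⟩
  rw [h3.tsum_eq]
  calc ∑ b ∈ bx M x, ∑ y ∈ bx M b, W * |fi ψ b y|
      ≤ ∑ b ∈ bx M x, ∑ _y ∈ bx M b, W := by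
        refine Finset.sum_le_sum fun b _ => Finset.sum_le_sum fun y _ => ?_
        calc W * |fi ψ b y| ≤ W * 1 := mul_le_mul_of_nonneg_left (fi_le H b y) hW
          _ = W := mul_one W
    _ = W * ((4 * M + 1 : ℝ) ^ d) ^ 2 := by
        simp only [Finset.sum_const, card_bx, nsmul_eq_mul]
        push_cast
        ring

theorem Jk_shift (H : F1 M t ψ e) (w : Lt d → ℝ)
    (hw : ∀ a v : Lt d, w (a + ((2 * M : ℕ) : ℤ) • v) = w a) (x y v : Lt d) :
    Jk ψ w (x + ((2 * M : ℕ) : ℤ) • v) (y + ((2 * M : ℕ) : ℤ) • v) = Jk ψ w x y := by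
  unfold Jk
  rw [← (Equiv.addRight (((2 * M : ℕ) : ℤ) • v)).tsum_eq]
  refine tsum_congr fun a => ?_
  rw [Equiv.coe_addRight, fi_shift H, fi_shift H, hw]

end one

/-! ### the kernels -/

/-- the kernel `2 d - ∑ K` -/
noncomputable def t0 {d : ℕ} (K : ℤ → ℤ → ℝ) (x y : Lt d) : ℝ :=
  (if x = y then 2 * (d : ℝ) else 0) - ∑ i, Dk K i x y

theorem single_iff {d : ℕ} (x y : Lt d) (i : Fin d) (c : ℤ) :
    y = x + Pi.single i c ↔ (∀ k, k ≠ i → x k = y k) ∧ y i = x i + c := by
  constructor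
  · rintro rfl
    refine ⟨fun k hk => ?_, ?_⟩
    · rw [Pi.add_apply, Pi.single_eq_of_ne hk, add_zero]
    · rw [Pi.add_apply, Pi.single_eq_same]
  · rintro ⟨h1, h2⟩
    funext k
    by_cases hk : k = i
    · rw [hk, h2, Pi.add_apply, Pi.single_eq_same]
    · rw [Pi.add_apply, Pi.single_eq_of_ne hk, add_zero, h1 k hk]

open Classical in
theorem Dk_k1 {d : ℕ} (i : Fin d) (x y : Lt d) :
    Dk k1 i x y = (if y = x + Pi.single i 1 then 1 else 0) +
      (if y = x - Pi.single i 1 then 1 else 0) := by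
  rw [Dk_eq]
  have h1 := single_iff x y i 1
  have h2 : y = x - Pi.single i 1 ↔ (∀ k, k ≠ i → x k = y k) ∧ y i = x i + -1 := by
    rw [← single_iff, Pi.single_neg, sub_eq_add_neg]
  by_cases h : ∀ k, k ≠ i → x k = y k
  · rw [if_pos h]
    have h3 : (y = x + Pi.single i 1) ↔ y i = x i + 1 := by rw [h1]; exact and_iff_right h
    have h4 : (y = x - Pi.single i 1) ↔ y i = x i - 1 := by
      rw [h2, ← sub_eq_add_neg]; exact and_iff_right h
    unfold k1
    simp only [h3, h4]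
  · rw [if_neg h, if_neg (fun h5 => h (h1.1 h5).1), if_neg (fun h5 => h (h2.1 h5).1), add_zero]

theorem kf_eq {d : ℕ} (x y : Lt d) : kf d x y = t0 k1 x y := by
  classical
  unfold kf t0
  have e2 : ∀ i : Fin d, (if y = x + Pi.single i 1 then (1 : ℝ) else 0) +
      (if y = x - Pi.single i 1 then 1 else 0) = Dk k1 i x y := fun i => (Dk_k1 i x y).symm
  by_cases h : x = y
  · rw [if_pos h]
    exact congrArg _ (Finset.sum_congr rfl fun i _ => e2 i)
  · rw [if_neg h]
    exact congrArg _ (Finset.sum_congr rfl fun i _ => e2 i)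

theorem abs_kf {d : ℕ} (x : Lt d) : (Summable fun y => |kf d x y|) ∧ ∑' y, |kf d x y| ≤ 4 * d := by
  have h1 : HasSum (fun y : Lt d => (if y = x then 2 * (d : ℝ) else 0) +
      ∑ i, Dk (fun a b => |k1 a b|) i x y) (2 * d + ∑ _i : Fin d, 2) := by
    refine (hasSum_ite_eq x (2 * (d : ℝ))).add (hasSum_sum fun i _ => hasSum_Dk i x ?_ ?_)
    · refine (fin_k1 (x i)).subset fun y hy h2 => hy ?_
      show |k1 (x i) y| = 0
      rw [h2, abs_zero]
    · refine (hasSum_k1 (x i)).congr_fun fun y => ?_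
      exact abs_of_nonneg (k1_nonneg _ _)
  have h2 : ∀ y : Lt d, |kf d x y| ≤ (if y = x then 2 * (d : ℝ) else 0) +
      ∑ i, Dk (fun a b => |k1 a b|) i x y := by
    intro y
    rw [kf_eq]
    unfold t0
    refine (abs_sub _ _).trans (add_le_add ?_ ?_)
    · by_cases h : x = y
      · rw [if_pos h, if_pos h.symm, abs_of_nonneg (by positivity)]
      · rw [if_neg h, if_neg fun h3 => h h3.symm, abs_zero]
    · refine (Finset.abs_sum_le_sum_abs _ _).trans (le_of_eq ?_)
      exact Finset.sum_congr rfl fun i _ => abs_Dk _ _ _ _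
  have h3 : Summable fun y => |kf d x y| :=
    Summable.of_nonneg_of_le (fun y => abs_nonneg _) h2 h1.summable
  refine ⟨h3, (h3.tsum_le_tsum h2 h1.summable).trans ?_⟩
  rw [h1.tsum_eq, Finset.sum_const, Finset.card_univ, Fintype.card_fin, nsmul_eq_mul]
  linarith

/-- the estimate for the unperturbed kernel -/
theorem abs_t0 {d M : ℕ} {t ψ : ℤ → ℤ → ℝ} {e : ℤ → ℝ} (H : F1 M t ψ e) {δ : ℝ}
    (hcl : ∀ x, (Summable fun y => |t x y - k1 x y|) ∧ ∑' y, |t x y - k1 x y| ≤ δ) (x : Lt d) :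
    (Summable fun y => |t0 t x y - kf d x y|) ∧ ∑' y, |t0 t x y - kf d x y| ≤ d * δ := by
  have h1 : HasSum (fun y : Lt d => ∑ i, Dk (fun a b => |t a b - k1 a b|) i x y)
      (∑ i : Fin d, ∑' y, |t (x i) y - k1 (x i) y|) := by
    refine hasSum_sum fun i _ => hasSum_Dk i x ?_ (hcl (x i)).1.hasSum
    refine ((fin_t H (x i)).union (fin_k1 (x i))).subset fun y hy => ?_
    by_contra h2
    rw [Set.mem_union, not_or, Function.notMem_support, Function.notMem_support] at h2
    apply hy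
    show |t (x i) y - k1 (x i) y| = 0
    rw [h2.1, h2.2, sub_zero, abs_zero]
  have h2 : ∀ y : Lt d, |t0 t x y - kf d x y| ≤ ∑ i, Dk (fun a b => |t a b - k1 a b|) i x y := by
    intro y
    rw [kf_eq]
    have h3 : t0 t x y - t0 k1 x y = -∑ i, Dk (fun a b => t a b - k1 a b) i x y := by
      have h4 : ∑ i, Dk (fun a b => t a b - k1 a b) i x y =
          ∑ i, Dk t i x y - ∑ i, Dk k1 i x y := by
        rw [← Finset.sum_sub_distrib]
        exact Finset.sum_congr rfl fun i _ => (Dk_sub _ _ _ _ _).symm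
      unfold t0
      rw [h4]
      ring
    rw [h3, abs_neg]
    refine (Finset.abs_sum_le_sum_abs _ _).trans (le_of_eq ?_)
    exact Finset.sum_congr rfl fun i _ => abs_Dk _ _ _ _
  have h3 : Summable fun y => |t0 t x y - kf d x y| :=
    Summable.of_nonneg_of_le (fun y => abs_nonneg _) h2 h1.summable
  refine ⟨h3, (h3.tsum_le_tsum h2 h1.summable).trans ?_⟩
  rw [h1.tsum_eq]
  calc ∑ i : Fin d, ∑' y, |t (x i) y - k1 (x i) y| ≤ ∑ _i : Fin d, δ :=
        Finset.sum_le_sum fun i _ => (hcl (x i)).2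
    _ = d * δ := by rw [Finset.sum_const, Finset.card_univ, Fintype.card_fin, nsmul_eq_mul]

theorem t0_eg {d M : ℕ} {t ψ : ℤ → ℤ → ℝ} {e : ℤ → ℝ} (H : F1 M t ψ e) (a x : Lt d) :
    HasSum (fun y => t0 t x y * fi ψ a y) ((2 * (d : ℝ) - ∑ i, e (a i)) * fi ψ a x) := by
  have h1 : HasSum (fun y : Lt d => (if y = x then 2 * (d : ℝ) * fi ψ a x else 0) -
      ∑ i, Dk t i x y * fi ψ a y)
      (2 * (d : ℝ) * fi ψ a x - ∑ i, e (a i) * fi ψ a x) := by
    refine (hasSum_ite_eq x _).sub (hasSum_sum fun i _ => ?_)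
    exact hasSum_Dk_mul i a x (fun k => fin_psi H (a k)) (H.eg (a i) (x i))
  rw [← Finset.sum_mul, ← sub_mul] at h1
  refine h1.congr_fun fun y => ?_
  unfold t0
  rw [sub_mul, Finset.sum_mul]
  congr 1
  by_cases h : x = y
  · rw [if_pos h, if_pos h.symm, h]
  · rw [if_neg h, if_neg fun h3 => h h3.symm, zero_mul]

theorem t0_ne {d M : ℕ} {t ψ : ℤ → ℤ → ℝ} {e : ℤ → ℝ} (H : F1 M t ψ e) {x y : Lt d}
    (h : t0 t x y ≠ 0) (k : Fin d) : |x k - y k| ≤ 4 * M := by
  have hM : (0 : ℤ) ≤ 4 * M := by positivity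
  by_cases hxy : x = y
  · rw [hxy, sub_self, abs_zero]
    exact hM
  · unfold t0 at h
    rw [if_neg hxy, zero_sub, neg_ne_zero] at h
    obtain ⟨i, -, hi⟩ := Finset.exists_ne_zero_of_sum_ne_zero h
    obtain ⟨h1, h2⟩ := Dk_ne hi
    by_cases hk : k = i
    · rw [hk]
      exact H.trg _ _ h2
    · rw [h1 k hk, sub_self, abs_zero]
      exact hM

theorem t0_symm {d : ℕ} {K : ℤ → ℤ → ℝ} (h : ∀ x y, K x y = K y x) (x y : Lt d) :
    t0 K x y = t0 K y x := by
  unfold t0
  rw [Finset.sum_congr rfl fun i _ => Dk_symm h i x y]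
  congr 1
  by_cases hxy : x = y
  · rw [if_pos hxy, if_pos hxy.symm]
  · rw [if_neg hxy, if_neg fun h3 => hxy h3.symm]

theorem t0_shift {d : ℕ} {K : ℤ → ℤ → ℝ} {c : ℤ} (h : ∀ x y, K (x + c) (y + c) = K x y)
    (x y v : Lt d) : t0 K (x + c • v) (y + c • v) = t0 K x y := by
  unfold t0
  rw [Finset.sum_congr rfl fun i _ => Dk_shift h i x y v]
  congr 1
  by_cases hxy : x = y
  · rw [if_pos hxy, if_pos (by rw [hxy])]
  · rw [if_neg hxy, if_neg fun h3 => hxy (add_right_cancel h3)]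

/-! ### the result -/

/-- FL-TEN -/
theorem t_ten (hone : S_one) : S_ten := by
  classical
  intro d ε hd hε
  have hd' : (0 : ℝ) < d := by exact_mod_cast hd
  obtain ⟨M, t1, ψ, e, H, hcl⟩ := hone (ε / (2 * d)) (by positivity)
  have hMpos := H.pos
  have : NeZero (2 * M) := ⟨by omega⟩
  obtain ⟨res, hres⟩ : ∃ res : Lt d → (Fin d → ZMod (2 * M)),
      ∀ a i, res a i = ((a i : ℤ) : ZMod (2 * M)) := ⟨fun a i => ((a i : ℤ) : ZMod (2 * M)),
        fun _ _ => rfl⟩
  obtain ⟨rep, hrep⟩ : ∃ rep : (Fin d → ZMod (2 * M)) → Lt d, ∀ p, res (rep p) = p := by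
    refine ⟨fun p i => ((p i).val : ℤ), fun p => funext fun i => ?_⟩
    rw [hres]
    simp
  obtain ⟨ι, hι, hιb⟩ : ∃ ι : (Fin d → ZMod (2 * M)) → ℝ, Function.Injective ι ∧
      ∀ p, |ι p| ≤ Fintype.card (Fin d → ZMod (2 * M)) := by
    refine ⟨fun p => ((Fintype.equivFin (Fin d → ZMod (2 * M)) p : ℕ) : ℝ), ?_, ?_⟩
    · intro p q hpq
      beta_reduce at hpq
      have h1 : (Fintype.equivFin (Fin d → ZMod (2 * M)) p : ℕ) =
          Fintype.equivFin (Fin d → ZMod (2 * M)) q := by exact_mod_cast hpq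
      exact (Fintype.equivFin _).injective (Fin.ext h1)
    · intro p
      beta_reduce
      rw [abs_of_nonneg (Nat.cast_nonneg _)]
      exact_mod_cast (Fintype.equivFin (Fin d → ZMod (2 * M)) p).isLt.le
  obtain ⟨W, hW⟩ : ∃ W : ℝ, W = Fintype.card (Fin d → ZMod (2 * M)) := ⟨_, rfl⟩
  rw [← hW] at hιb
  have hW0 : 0 ≤ W := by rw [hW]; positivity
  obtain ⟨K, hK⟩ : ∃ K : ℝ, K = W * ((4 * M + 1 : ℝ) ^ d) ^ 2 := ⟨_, rfl⟩
  have hK0 : 0 ≤ K := by rw [hK]; positivity
  obtain ⟨E0, hE0⟩ : ∃ E0 : Lt d → ℝ, ∀ a, E0 a = 2 * (d : ℝ) - ∑ i, e (a i) :=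
    ⟨_, fun _ => rfl⟩
  have hdvd : ∀ a b : Lt d, res a = res b → ∀ i, (2 * M : ℤ) ∣ a i - b i := by
    intro a b hab i
    have h1 := congrFun hab i
    rw [hres, hres, eq_comm, ZMod.intCast_eq_intCast_iff_dvd_sub] at h1
    push_cast at h1
    exact h1
  have hE0res : ∀ a b, res a = res b → E0 a = E0 b := by
    intro a b hab
    rw [hE0, hE0]
    congr 1
    refine Finset.sum_congr rfl fun i _ => ?_
    obtain ⟨m, hm⟩ := hdvd a b hab i
    have h1 : a i = b i + M * (2 * m) := by linarith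
    rw [h1, e_shift H]
  obtain ⟨τ, hτ0, hτ1, g, hg, hsep⟩ := sepfin (fun p => E0 (rep p)) ι hι (ε / (2 * (K + 1)))
    (by positivity)
  have hτK : τ * K ≤ ε / 2 := by
    calc τ * K ≤ ε / (2 * (K + 1)) * (K + 1) :=
          mul_le_mul hτ1 (by linarith) hK0 (by positivity)
      _ = ε / 2 := by field_simp
  obtain ⟨E, hE⟩ : ∃ E : Lt d → ℝ, ∀ a, E a = E0 a + τ * ι (res a) := ⟨_, fun _ => rfl⟩
  have hEg : ∀ a b, res a ≠ res b → g ≤ |E a - E b| := by
    intro a b hab
    have h1 := hsep _ _ hab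
    rw [hE, hE, hE0res a (rep (res a)) (hrep _).symm, hE0res b (rep (res b)) (hrep _).symm]
    exact h1
  obtain ⟨w, hw⟩ : ∃ w : Lt d → ℝ, ∀ a, w a = ι (res a) := ⟨_, fun _ => rfl⟩
  obtain ⟨T, hT⟩ : ∃ T : Lt d → Lt d → ℝ, ∀ x y, T x y = t0 t1 x y + τ * Jk ψ w x y :=
    ⟨_, fun _ _ => rfl⟩
  have hcl2 : ∀ x, (Summable fun y => |T x y - kf d x y|) ∧ ∑' y, |T x y - kf d x y| ≤ ε := by
    intro x
    obtain ⟨a1, a2⟩ := abs_t0 (d := d) H hcl x
    obtain ⟨b1, b2⟩ := Jk_abs H w W (fun a => by rw [hw]; exact hιb _) x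
    have h1 : ∀ y, |T x y - kf d x y| ≤ |t0 t1 x y - kf d x y| + τ * |Jk ψ w x y| := by
      intro y
      rw [hT, show t0 t1 x y + τ * Jk ψ w x y - kf d x y =
        (t0 t1 x y - kf d x y) + τ * Jk ψ w x y by ring]
      refine (abs_add_le _ _).trans (le_of_eq ?_)
      rw [abs_mul, abs_of_pos hτ0]
    have h2 := a1.add (b1.mul_left τ)
    have h3 : Summable fun y => |T x y - kf d x y| :=
      Summable.of_nonneg_of_le (fun y => abs_nonneg _) h1 h2
    refine ⟨h3, (h3.tsum_le_tsum h1 h2).trans ?_⟩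
    rw [a1.tsum_add (b1.mul_left τ), tsum_mul_left]
    have h4 : (d : ℝ) * (ε / (2 * d)) = ε / 2 := by field_simp
    rw [h4] at a2
    rw [← hK] at b2
    have h5 := mul_le_mul_of_nonneg_left b2 hτ0.le
    linarith
  have hTsy : ∀ x y, T x y = T y x := by
    intro x y
    rw [hT, hT, t0_symm H.sy, Jk_symm]
  have hTne : ∀ x y, T x y ≠ 0 → ∀ i, |x i - y i| ≤ ((4 * M : ℕ) : ℤ) := by
    intro x y hxy i
    push_cast
    by_contra h1
    have h2 : t0 t1 x y = 0 := by
      by_contra h3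
      exact h1 (t0_ne H h3 i)
    have h3 : Jk ψ w x y = 0 := by
      by_contra h3
      exact h1 (Jk_ne H h3 i)
    apply hxy
    rw [hT, h2, h3, mul_zero, add_zero]
  refine ⟨4 * M * d, 2 * M, g, ε + 4 * d, T, fi ψ, E, hg, by omega, ?_, ?_, ?_, hcl2⟩
  · refine ⟨hTsy, fun x y hxy => nm_le x y (4 * M) (hTne x y hxy), fun a x hax => ?_,
      fi_on H, fi_cp H, fun a x => ?_, fun a b hab => ?_, fun a b hab hEab x => ?_⟩
    · refine nm_le a x (4 * M) fun i => ?_
      have h1 := fi_ne H hax i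
      push_cast
      have h2 : (0 : ℤ) ≤ M := by positivity
      linarith
    · have h1 := (t0_eg H a x).add ((Jk_eg H w a x).mul_left τ)
      have h2 : (2 * (d : ℝ) - ∑ i, e (a i)) * fi ψ a x + τ * (w a * fi ψ a x) =
          E a * fi ψ a x := by
        rw [hE, hE0, hw]
        ring
      rw [h2] at h1
      refine h1.congr_fun fun y => ?_
      rw [hT]
      ring
    · refine hEg a b fun h1 => hab ?_
      rw [hE, hE, h1, hE0res a b h1]
    · have h1 : res a = res b := by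
        by_contra h2
        have h3 := hEg a b h2
        rw [hEab, sub_self, abs_zero] at h3
        linarith
      obtain ⟨i, hi⟩ := Function.ne_iff.1 hab
      have h2 := H.ds (a i) (b i) hi (hdvd a b h1 i) (x i)
      unfold fi
      rw [← Finset.prod_mul_distrib]
      exact Finset.prod_eq_zero (Finset.mem_univ i) h2
  · refine ⟨by positivity, hTsy, fun x => ?_, fun x => ?_⟩
    · refine Summable.of_nonneg_of_le (fun y => abs_nonneg _) (fun y => ?_)
        ((hcl2 x).1.add (abs_kf x).1)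
      calc |T x y| = |(T x y - kf d x y) + kf d x y| := by rw [sub_add_cancel]
        _ ≤ _ := abs_add_le _ _
    · have h1 : ∀ y, |T x y| ≤ |T x y - kf d x y| + |kf d x y| := by
        intro y
        calc |T x y| = |(T x y - kf d x y) + kf d x y| := by rw [sub_add_cancel]
          _ ≤ _ := abs_add_le _ _
      have h2 := (hcl2 x).1.add (abs_kf x).1
      have h3 : Summable fun y => |T x y| :=
        Summable.of_nonneg_of_le (fun y => abs_nonneg _) h1 h2
      refine (h3.tsum_le_tsum h1 h2).trans ?_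
      rw [(hcl2 x).1.tsum_add (abs_kf x).1]
      exact add_le_add (hcl2 x).2 (abs_kf x).2
  · intro x y v
    rw [hT, hT]
    have h1 : t0 t1 (x + ((2 * M : ℕ) : ℤ) • v) (y + ((2 * M : ℕ) : ℤ) • v) = t0 t1 x y := by
      apply t0_shift
      intro x y
      have := shift_mul (K := t1) (c := M) (fun x y => H.per x y) 2 x y
      rw [← this]
      congr 1 <;> push_cast <;> ring
    have h2 : Jk ψ w (x + ((2 * M : ℕ) : ℤ) • v) (y + ((2 * M : ℕ) : ℤ) • v) = Jk ψ w x y := by
      apply Jk_shift H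
      intro a v
      rw [hw, hw]
      congr 1
      funext i
      rw [hres, hres]
      simp only [Pi.add_apply, Pi.smul_apply, smul_eq_mul, Int.cast_add, Int.cast_mul]
      rw [Int.cast_natCast, ZMod.natCast_self, zero_mul, add_zero]
    rw [h1, h2]

end Pool.Agent.H539.FLT

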